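import Mathlib
import Pool.Agent.Q267.Perm.SqFin

/-!
# MP_73edb1_nt: the permanent of `[i - l + δ_{il}]_{1 ≤ i,l ≤ p}` modulo `p²`

For every odd prime `p` the permanent of the matrix with entries `i - l` off the diagonal and `1`
on the diagonal, `1 ≤ i, l ≤ p`, is congruent to `4 p + 1` modulo `p²`.
-/

namespace Pool.Agent.Results.MP_73edb1_nt.PermDiffSquare

theorem result : ∀ p : ℕ, p.Prime → p ≠ 2 →
    (Matrix.of fun i l : Finset.Icc 1 p =>
      ((i : ℕ) : ℤ) - ((l : ℕ) : ℤ) + if i = l then 1 else 0).permanent ≡ 4 * p + 1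
      [ZMOD ((p : ℤ) ^ 2)] := by
  intro p hp hp2
  have := Fact.mk hp
  have h := Pool.Agent.Q267.Perm.perm_diff hp2
  rw [Nat.cast_pow] at h
  exact h

end Pool.Agent.Results.MP_73edb1_nt.PermDiffSquare
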